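import Pool.Agent.Work.MP_55ff09_co.CL.Main

/-!
# MP_55ff09_co : excluding a clique plus a linear forest as an induced minor

Let the vertex set of `H` be `K ∪ L` where `K` is a clique and `H[L]` is a linear forest; the edges
between `K` and `L` are arbitrary. Then for every `D` there is `t` such that every finite graph of
maximum degree at most `D` without induced minor `H` has no `K_t` minor.
-/

set_option autoImplicit false

namespace Pool.Agent.Results.MP_55ff09_co.CliquePlusLinearForest

open Pool.Agent.IM55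

/-- `e` numbers the vertices outside the clique `K` by distinct integers such that two of them are
adjacent iff their numbers are consecutive. -/
theorem result (m : ℕ) (H : SimpleGraph (Fin m)) (K : Set (Fin m)) (e : Fin m → ℤ)
    (hK : ∀ u ∈ K, ∀ v ∈ K, u ≠ v → H.Adj u v)
    (hL : ∀ u ∉ K, ∀ v ∉ K, u ≠ v → e u ≠ e v ∧ (H.Adj u v ↔ |e u - e v| = 1)) (D : ℕ) :
    ∃ t : ℕ, ∀ (V : Type) [Finite V] (G : SimpleGraph V), (∀ v, (G.neighborSet v).ncard ≤ D) →
      ¬ IsInducedMinor H G →
      ¬ ∃ A : Fin t → Set V, (∀ i, (G.induce (A i)).Connected) ∧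
        (∀ i j, i ≠ j → Disjoint (A i) (A j)) ∧
        ∀ i j, i ≠ j → ∃ x ∈ A i, ∃ y ∈ A j, G.Adj x y := by
  obtain ⟨t, ht⟩ := CL.final m H K e hK hL D
  refine ⟨t, fun V _ G hG hH ⟨A, h1, h2, h3⟩ => ht G hG hH ⟨A, h1, h2, fun h h' hne => ?_⟩⟩
  exact ⟨fun _ => h3 h h' hne, fun _ => by simpa using hne⟩

end Pool.Agent.Results.MP_55ff09_co.CliquePlusLinearForest
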